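import Mathlib
import Pool.Agent.Run7.h881.CD.Cor

/-!
# PCP reductions to `d`-to-1 games with perfect completeness need smoothness

The standard gap reductions to `d`-to-1 games start with a projection game (Label Cover: left vertices
`u` with labels in `S`, right vertices `v` with labels in `G`, projections `proj u v : S → G`), for
instance the clause-variable game of a 3-CNF formula; they repeat it in parallel, possibly in the
smooth form (in some of the rounds the second player gets the left vertex itself instead of a right
vertex), replace the tuples by tables (the long code, the Grassmann code or any other code), and test
an entry of the table of a tuple of left vertices against an entry of the table of the second tuple.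
The definitions are in `Pool/Agent/Run7/h881/CK/Defs.lean` and `Pool/Agent/Run7/h881/CD/Defs.lean`:

* `Source`: the projection game, with a probability distribution `mu u` of the labels of each left
  vertex `u` such that its projection to a neighbour `v` is a distribution `lam v` which depends on `v`
  only. Nothing is said about the value of this game: it may be satisfiable or far from it.
* `Source.Indep`: the projections of a random label of `u` to two different neighbours are
  independent. Part (3) below: this is so for the clause-variable game of every 3-CNF formula, with
  the distribution on the satisfying assignments of a clause with an odd number of true literals.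
* `Game`: a bipartite game with vertices `P` and `T`, labels in `A` and `B` and constraints
  `pi e (label of src e) = label of tgt e`, composed with the product of the games `Q i`, `i : I`.
  Each vertex `p` in `P` belongs to the table of a tuple of left vertices, each vertex `t` in `T` to
  the table of a tuple of left and right vertices, and they have honest labels, which are functions
  of the tuple of the labels. On every edge and in each round `i` the entry of the second tuple is
  the left vertex of the first one or a right vertex adjacent to it.
* `Game.Perfect`: perfect completeness: the honest labels for all tuples of labels of positive
  probability and their projections satisfy all constraints.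
* `Game.Mixing γ p`: in each round, for a random edge at `p`, the entry of the second tuple is with
  probability at least `2 γ` a right vertex, and, for every `v`, with probability at least `γ` a right
  vertex different from `v`. If the second tuple is chosen independently of the entry of the table, all
  degrees are at least two and a right vertex is chosen with probability `β` in each round, and then
  uniformly from the neighbours, then this holds with `γ = β / 2`; `β = 1` is the case without
  smoothness.

The theorem. (1) Let all constraints be `d`-to-1 and let the game have perfect completeness. Then
some labelling satisfies at least `d ^ (- (1 - γ) / γ)` times the number of edges at `γ`-mixing vertices,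
whatever the value of the projection games, the number of rounds, the tables and the alphabets are.
(2) If there is no smoothness and in each round no right vertex is used by more than half of the
edges at a vertex, then the value is at least `1 / d`. (3) The clause-variable games of 3-CNF formulas
are sources of this kind.

So a reduction with perfect completeness and soundness `δ` must use, for every fixed `γ`, vertices
which are not `γ`-mixing for almost all of its tests if `δ` is small: it must be smooth, with `β` at most
about `2 log d / log (1 / δ)`, or choose the second tuple in dependence on the entry of the table. The
number of rounds does not help, and without smoothness no soundness below `1 / d` is possible.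

Proof. Let `h` be the honest label of `p`, a function of independent random labels `a_i`, and let
`G_e = pi e (h)` for an edge `e` at `p`. As `e` is `d`-to-1, `H(h) ≤ H(G_e) + log d`. By perfect
completeness `G_e` is a function of the entries of the second tuple, so `H(G_e)` is at most the sum over
the rounds `i` of the information about `h` contained in the entry `i` given `a_j`, `j < i`. By pairwise
independence the informations of two different right vertices add up to at most the information of
`a_i`, so on average over `e` this is at most the fraction `1 - γ` of it. Hence
`E H(G_e) ≤ (1 - γ) H(h) ≤ (1 - γ) (E H(G_e) + log d)`, that is, `E H(G_e) ≤ (1 / γ - 1) log d`. The vertices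
in `T` get their most popular honest labels.
-/

set_option autoImplicit false

namespace Pool.Agent.Results.MP_62e2f2_lc.CompositionSmoothness

open Finset Run7.h881.CK Run7.h881.CD

open scoped Classical in
/-- Let `R` be a game composed with the parallel repetition of the projection games `Q i` with
pairwise independent projections, with perfect completeness and `d`-to-1 constraints.
(1) For `0 < γ ≤ 1` some labelling satisfies at least `d ^ (- (1 - γ) / γ)` times the number of edges at
`γ`-mixing vertices. (2) If all tuples `ownT t` consist of right vertices and in each round no right
vertex is used by more than half of the edges at a vertex of `P`, then some labelling satisfies at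
least the fraction `1 / d` of the edges. (3) The clause-variable game of each 3-CNF formula with
clauses on three different variables is such a projection game, with labels that satisfy the
clauses. -/
theorem result :
    (∀ (I U V S G P T E A B : Type) [Fintype I] [Fintype S] [Fintype G] [DecidableEq G] [Fintype E]
      [Fintype A] [Fintype B] [Nonempty A] [Nonempty B] (Q : I → Source U V S G)
      (R : Game Q P T E A B) (d : ℕ), 1 ≤ d → (∀ i, (Q i).Indep) → R.Perfect →
      (∀ e b, (univ.filter fun a => R.pi e a = b).card ≤ d) →
      (∀ γ : ℝ, 0 < γ → γ ≤ 1 → ∃ (F : P → A) (F' : T → B),
        (d : ℝ) ^ (-((1 - γ) / γ)) * ((univ.filter fun e => R.Mixing γ (R.src e)).card : ℝ) ≤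
          ((univ.filter fun e => R.pi e (F (R.src e)) = F' (R.tgt e)).card : ℝ)) ∧
      ((∀ t i, ∃ v, R.ownT t i = Sum.inr v) →
        (∀ p i v, 2 * (univ.filter fun e => R.src e = p ∧ R.ownT (R.tgt e) i = Sum.inr v).card ≤
          (univ.filter fun e => R.src e = p).card) →
        ∃ (F : P → A) (F' : T → B), Fintype.card E ≤
          d * (univ.filter fun e => R.pi e (F (R.src e)) = F' (R.tgt e)).card)) ∧
    (∀ (n m : ℕ) (var : Fin m → Fin 3 → Fin n) (neg : Fin m → Fin 3 → Bool),
      (∀ c, Function.Injective (var c)) →
      ∃ q : Source (Fin m) (Fin n) (Fin 3 → Bool) Bool, q.Indep ∧
        (∀ c v, q.nbr c v ↔ ∃ j, var c j = v) ∧
        (∀ c j s, q.proj c (var c j) s = s j) ∧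
        (∀ c s, 0 < q.mu c s → ∃ j, s j ≠ neg c j)) := by
  refine ⟨?_, fun n m var neg hinj => threeSat var neg hinj⟩
  intro I U V S G P T E A B _ _ _ _ _ _ _ _ _ Q R d hd hQ hperf hfib
  exact ⟨fun γ hγ hγ1 => R.main hQ hperf hd hfib hγ hγ1,
    fun hT hhalf => R.plain hQ hperf hd hfib hT hhalf⟩

end Pool.Agent.Results.MP_62e2f2_lc.CompositionSmoothness
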