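import Pool.Agent.Run7.h715.CL.Games

/-!
# d-to-1 Label Cover and counting logic

`Proj t A B`: the maps from `A` to `B` with fibres of at most `t` elements. A t-to-1 Label Cover
instance with label sets `A`, `B` is a structure `Str 2 (Proj t A B) X`: for each map `π` and each pair
`e` of vertices it gives the multiplicity of the constraint `π (label of e 0) = label of e 1`.
`gmSat I x y` is the number of the constraints satisfied if the vertices get the labels `x : X → A` as
first end and `y : X → B` as second end of a constraint. (In a bipartite instance each vertex uses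
only one of the two.) `DuplicatorWins K I J`: Duplicator wins Hella's bijective `K`-pebble game, that
is, `I` and `J` satisfy the same sentences of counting logic with `K` variables. `cnfSat`: the number
of satisfied clauses of a 3-CNF formula (the symbol of a clause is the assignment which violates
it). `IsReduction`: see `Pool/Agent/Run7/h715/CL/Games.lean`.
-/

set_option autoImplicit false

namespace Pool.Agent.Results.MP_62e2f2_lc.CountingLogic

open Run7.h625.CW Run7.h715.CL

/-- Let `t ≥ 1`, `0 < c ≤ 1`, `log (1024 t / c ^ 4) ≤ l`, `x = log (1024 t / c ^ 4) / l`.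
(1) If Duplicator wins the bijective `K`-pebble game on two t-to-1 Label Cover instances with `n`
vertices over the same label sets, where `K ≥ n ^ (14 x log (2 / x))` and `l ≤ log n`, or
`K ≥ 2 n`, and the first has value at least `c`, then the second has value at least
`c ^ 5 e ^ (-l) / 2 ^ 21`.
(2) If `14 d x log (2 / x) < 1`, then no reduction of dimension `d` that respects equivalence in
counting logic maps satisfiable 3-CNF formulas to t-to-1 instances of value at least `c` and
formulas of value at most `7 / 8 + ρ` to instances of value less than `c ^ 5 e ^ (-l) / 2 ^ 21`. -/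
theorem result :
    (∀ (X Y A B : Type) [Fintype X] [Fintype Y] [Fintype A] [DecidableEq A] [Fintype B]
      [DecidableEq B] (t : ℕ) (I : Str 2 (Proj t A B) X) (J : Str 2 (Proj t A B) Y) (c l x : ℝ)
      (K : ℕ), 1 ≤ t → 0 < c → c ≤ 1 → Real.log (1024 * t / c ^ 4) ≤ l →
      x = Real.log (1024 * t / c ^ 4) / l → 2 ≤ K →
      ((l ≤ Real.log (Fintype.card X) ∧
        (Fintype.card X : ℝ) ^ (14 * (x * Real.log (2 / x))) ≤ K) ∨ 2 * Fintype.card X ≤ K) →
      DuplicatorWins K I J →
      (∃ (M : X → A) (N : X → B), c * (total I : ℝ) ≤ gmSat I M N) →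
      ∃ (M : Y → A) (N : Y → B), c ^ 5 * Real.exp (-l) / 2 ^ 21 * (total J : ℝ) ≤ gmSat J M N) ∧
    (∀ (t : ℕ) (c l x ρ : ℝ), 1 ≤ t → 0 < c → c ≤ 1 → Real.log (1024 * t / c ^ 4) ≤ l →
      x = Real.log (1024 * t / c ^ 4) / l → 0 < ρ →
      ∀ d l' B : ℕ, 1 ≤ d → (d : ℝ) * (14 * (x * Real.log (2 / x))) < 1 →
      ∀ (A A' : ℕ → Type) [∀ N, Fintype (A N)] [∀ N, DecidableEq (A N)] [∀ N, Fintype (A' N)]
        [∀ N, DecidableEq (A' N)]
        (R : ∀ N : ℕ, Str 3 (Fin 3 → ZMod 2) (Fin N) → Inst 2 (Proj t (A N) (A' N))),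
        ¬ IsReduction t c (c ^ 5 * Real.exp (-l) / 2 ^ 21) ρ d l' B A A' R) := by
  refine ⟨?_, ?_⟩
  · intro X Y A B _ _ _ _ _ _ t I J c l x K ht hc hc1 hl hx hK2 hK h hv
    exact value_transfer I J c l x ht hc hc1 hl hx K hK2 hK h hv
  · intro t c l x ρ ht hc hc1 hl hx hρ d l' B hd hdx A A' _ _ _ _ R
    exact barrier t c l x ρ ht hc hc1 hl hx hρ d l' B hd hdx A A' R

end Pool.Agent.Results.MP_62e2f2_lc.CountingLogic
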