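import Pool.Agent.Run7.h881.GP.Fin
import Pool.Agent.Run7.h881.GP.Perf

/-!
The integrality gap of the pairwise semidefinite program of `d`-to-1 Label Cover on `n` vertices is
`n ^ o(1)`, for all numbers of labels and every constraint graph.
-/

set_option autoImplicit false

namespace Pool.Agent.Results.MP_62e2f2_lc.SubpolynomialGap

open Finset Pool.Agent.H562R2

/-- Solutions of value at least `κ` of the pairwise semidefinite relaxation of the Label Cover
instance with edges `(v e, w e)` and projections `π e : A → B` from the labels of right vertices to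
those of left vertices: vectors `y v b`, `x w a` (in a finite-dimensional space) which for each
vertex are pairwise orthogonal and sum to one common unit vector, with nonnegative inner products,
and `∑_e ∑_a ⟨x (w e) a, y (v e) (π e a)⟩ ≥ κ |E|`. -/
def SdpSolution {V W E A B D : Type} [Fintype E] [Fintype A] [Fintype B] [Fintype D] (v : E → V)
    (w : E → W) (π : E → A → B) (κ : ℝ) (y : V → B → D → ℝ) (x : W → A → D → ℝ) : Prop :=
  (∃ z : D → ℝ, z ⬝ᵥ z = 1 ∧ (∀ i, ∑ a, x i a = z) ∧ (∀ i, ∑ b, y i b = z)) ∧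
  (∀ i a a', a ≠ a' → x i a ⬝ᵥ x i a' = 0) ∧
  (∀ i b b', b ≠ b' → y i b ⬝ᵥ y i b' = 0) ∧
  (∀ i a i' a', 0 ≤ x i a ⬝ᵥ x i' a') ∧
  (∀ i a i' b, 0 ≤ x i a ⬝ᵥ y i' b) ∧
  (∀ i b i' b', 0 ≤ y i b ⬝ᵥ y i' b') ∧
  κ * (Fintype.card E : ℝ) ≤ ∑ e, ∑ a, x (w e) a ⬝ᵥ y (v e) (π e a)

/-- For `d ≥ 1` and every `d`-to-1 Label Cover instance, with any numbers of labels and any
bipartite multigraph:
(1) if the relaxation has value at least `κ`, `0 < κ ≤ 1`, then the value of the instance is at
least `exp (-3000 (√(log (d/κ) * N * log (N + 2)) + (log (d/κ) + 1) * log (N + 2)))`, where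
`N = log (|V| + |W|)`;
(2) if the relaxation has value one then the value of the instance is at least
`d ^ (-m) * |W| ^ (-1 / (2 m + 1))` for every `m ≥ 0`. -/
theorem result (d : ℕ) (hd : 1 ≤ d) (V W E A B D : Type) [Fintype V] [Fintype W] [Fintype E]
    [Nonempty E] [Fintype A] [Fintype B] [DecidableEq B] [Fintype D] (v : E → V) (w : E → W)
    (π : E → A → B) (y : V → B → D → ℝ) (x : W → A → D → ℝ)
    (hπ : ∀ e b, (univ.filter fun a => π e a = b).card ≤ d) :
    (∀ κ N : ℝ, 0 < κ → κ ≤ 1 → N = Real.log ((Fintype.card V : ℝ) + Fintype.card W) →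
      SdpSolution v w π κ y x →
      ∃ (L : V → B) (M : W → A),
        Real.exp (-(3000 * (Real.sqrt (Real.log (d / κ) * N * Real.log (N + 2)) +
          (Real.log (d / κ) + 1) * Real.log (N + 2)))) * (Fintype.card E : ℝ) ≤
          ((univ.filter fun e => π e (M (w e)) = L (v e)).card : ℝ)) ∧
    (SdpSolution v w π 1 y x → ∀ m : ℕ,
      ∃ (L : V → B) (M : W → A),
        1 / (d : ℝ) ^ m * (1 / (Fintype.card W : ℝ) ^ (1 / (2 * m + 1 : ℝ))) *
          (Fintype.card E : ℝ) ≤
          ((univ.filter fun e => π e (M (w e)) = L (v e)).card : ℝ)) := by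
  classical
  constructor
  · intro κ N hκ hκ1 hN h
    obtain ⟨⟨z, hz, hzx, hzy⟩, h1, h2, h3, h4, h5, hval⟩ := h
    have hfeas : SdpFeasible x y := ⟨z, hz, hzx, hzy, h1, h2, h3, h4, h5⟩
    obtain ⟨M, L, hML⟩ := Run7.h881.GP.gap w v π d hd hπ hfeas κ hκ hκ1 hval
      (Real.log (d / κ)) N rfl (by
        rw [hN, Fintype.card_sum, add_comm]
        push_cast
        rfl)
    exact ⟨L, M, hML⟩
  · intro h m
    obtain ⟨⟨z, hz, hzx, hzy⟩, h1, h2, h3, h4, h5, hval⟩ := h
    have hfeas : SdpFeasible x y := ⟨z, hz, hzx, hzy, h1, h2, h3, h4, h5⟩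
    rw [one_mul] at hval
    obtain ⟨M, L, hML⟩ := Run7.h881.GP.perfect_gap w v π d hd hπ hfeas hval
      (Run7.h881.GP.exists_lab hfeas) m
    exact ⟨L, M, hML⟩

end Pool.Agent.Results.MP_62e2f2_lc.SubpolynomialGap
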